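import Mathlib
import Pool.Agent.LeoD.CountStmts
import Pool.Agent.Helper13_LeoK.LOW

/-!
# LEOD, module MSB: the size of the family (port of LEOC MSQ)
-/

set_option autoImplicit false

open NumberField NumberField.InfinitePlace NumberField.mixedEmbedding IsDedekindDomain Module
  MeasureTheory Filter Topology
open Pool.Agent.LeoK Pool.Agent.LeoG Pool.Agent.LeoC

namespace Pool.Agent.LeoD.H73

/-- failure of the local condition at a prime -/
theorem mem_sq_of_not {k : Type} [Field k] [NumberField k] {cc : Ideal (𝓞 k)} {m : 𝓞 k}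
    {p : HeightOneSpectrum (𝓞 k)}
    (h : ∃ x ∈ cc * p.asIdeal, x ^ 2 + m ∈ Ideal.span {(4 : 𝓞 k)} * (cc * p.asIdeal) ^ 2) :
    m ∈ p.asIdeal ^ 2 := by
  obtain ⟨x, hx, hm⟩ := h
  have h1 : x ^ 2 ∈ (cc * p.asIdeal) ^ 2 := Ideal.pow_mem_pow hx 2
  have h2 : x ^ 2 + m ∈ (cc * p.asIdeal) ^ 2 := Ideal.mul_le_right hm
  have h3 : m ∈ (cc * p.asIdeal) ^ 2 := by
    have := ((cc * p.asIdeal) ^ 2).sub_mem h2 h1
    rwa [add_sub_cancel_left] at this
  have h4 : (cc * p.asIdeal) ^ 2 ≤ p.asIdeal ^ 2 := Ideal.pow_right_mono Ideal.mul_le_right 2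
  exact h4 h3

/-- MSB -/
theorem msb (hMRB : MrbStmt) (hMSA : Pool.Agent.LeoC.MsaStmt)
    (hMST : Pool.Agent.LeoC.MstStmt) (hPIK : Pool.Agent.LeoK.PikStmt) (hPIE : PieStmt)
    (hBFN : BfnStmt) : MsbStmt := by
  classical
  intro k _ _ Φ Ng B E
  obtain ⟨A, hA, hT⟩ := hMST k Φ
  obtain ⟨hsum, -⟩ := hPIK k
  obtain ⟨-, -, hQle, -⟩ := hPIE k E
  obtain ⟨hb0, hbb, hcc, -, -, hfinp⟩ := hBFN k B
  have hfin : ∀ Z : ℝ, (Fam Φ Ng B E Z).Finite := by
    intro Z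
    refine (hT (max Z 1) (by positivity)).1.subset ?_
    rintro m ⟨-, h1, h2, -⟩
    exact ⟨h1, h2.trans (le_max_left _ _)⟩
  refine ⟨hfin, ⟨A, hA, fun Z hZ => ?_⟩, fun ε hε => ?_⟩
  · refine le_trans ?_ (hT Z hZ).2.1
    have : (Fam Φ Ng B E Z).ncard ≤ {m : 𝓞 k | av (mixedEmbedding k (m : k)) ∈ Φ.F ∧
        nr (av (mixedEmbedding k (m : k))) ≤ Z}.ncard := by
      refine Set.ncard_le_ncard ?_ (hT Z hZ).1
      rintro m ⟨-, h1, h2, -⟩
      exact ⟨h1, h2⟩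
    exact_mod_cast this
  · obtain ⟨Q0, hQ0⟩ := (summable_iff_vanishing_norm.1 hsum) (ε / 2 / A) (by positivity)
    have h6b : (6 * B.b : 𝓞 k) ≠ 0 := by
      have h1 : ((6 * B.b : ℕ) : 𝓞 k) ≠ 0 := by
        rw [Nat.cast_ne_zero]
        omega
      have h2 : ((6 * B.b : ℕ) : 𝓞 k) = 6 * (B.b : 𝓞 k) := by push_cast; ring
      rwa [h2] at h1
    have h6fin := hfinp (6 * B.b : 𝓞 k) h6b
    set Q : Finset (HeightOneSpectrum (𝓞 k)) := Q0 ∪ h6fin.toFinset with hQdef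
    have hQ : ∀ t : Finset (HeightOneSpectrum (𝓞 k)), Disjoint t Q →
        ‖∑ p ∈ t, 1 / Pool.Agent.LeoK.np p ^ 2‖ < ε / 2 / A := by
      intro t ht
      exact hQ0 t (ht.mono_right (by rw [hQdef]; exact Finset.subset_union_left))
    have hmem6 : ∀ p : HeightOneSpectrum (𝓞 k), (6 * B.b : 𝓞 k) ∈ p.asIdeal → p ∈ Q := by
      intro p hp
      rw [hQdef, Finset.mem_union]
      right
      exact h6fin.mem_toFinset.2 hp
    have hmem3 : ∀ p : HeightOneSpectrum (𝓞 k), (3 : 𝓞 k) ∈ p.asIdeal → p ∈ Q := by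
      intro p hp
      apply hmem6
      have : (6 * B.b : 𝓞 k) = (2 * B.b) * 3 := by ring
      rw [this]
      exact Ideal.mul_mem_left _ _ hp
    obtain ⟨N, S, hN, hS, hScard⟩ := hMRB k B E Q hmem6
    obtain ⟨Z₀, hZ₀⟩ := hMSA k Φ Ng N hN S (ε / 2) (by positivity)
    refine ⟨max Z₀ 1, fun Z hZ => ?_⟩
    have hZ1 : 1 ≤ Z := (le_max_right _ _).trans hZ
    have hZpos : 0 < Z := by linarith
    have hlow := hZ₀ Z ((le_max_left _ _).trans hZ)
    set G : Set (𝓞 k) := {m : 𝓞 k | Ideal.Quotient.mk N m ∈ S ∧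
        Sgn Ng (mixedEmbedding k (m : k)) ∧ av (mixedEmbedding k (m : k)) ∈ Φ.F ∧
        nr (av (mixedEmbedding k (m : k))) ≤ Z} with hGdef
    have hGfin : G.Finite := by
      refine (hT Z hZpos).1.subset ?_
      rintro m ⟨-, -, h1, h2⟩
      exact ⟨h1, h2⟩
    set W : Set (𝓞 k) := {m | m ∈ G ∧ ∃ p : HeightOneSpectrum (𝓞 k),
      ∃ x ∈ B.cc * p.asIdeal, x ^ 2 + m ∈ Ideal.span {(4 : 𝓞 k)} * (B.cc * p.asIdeal) ^ 2}
      with hWdef
    have hWfin : W.Finite := hGfin.subset (fun p hp => hp.1)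
    have hWc : (W.ncard : ℝ) ≤ A * Z * (ε / 2 / A) := by
      refine Pool.Agent.LeoK.H13.ncard_cover W hWfin (fun p : HeightOneSpectrum (𝓞 k) =>
        {m : 𝓞 k | m ∈ p.asIdeal ^ 2 ∧ av (mixedEmbedding k (m : k)) ∈ Φ.F ∧
          nr (av (mixedEmbedding k (m : k))) ≤ Z}) ?_
        (fun p => 1 / Pool.Agent.LeoK.np p ^ 2) (A * Z) _ (by positivity) Q hQ ?_ ?_
      · intro p
        refine (hT Z hZpos).1.subset ?_
        rintro m ⟨-, h1, h2⟩
        exact ⟨h1, h2⟩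
      · intro p
        have := (hT Z hZpos).2.2 p
        calc _ ≤ A * Z / Pool.Agent.LeoK.np p ^ 2 := this
          _ = A * Z * (1 / Pool.Agent.LeoK.np p ^ 2) := by ring
      · rintro m ⟨⟨h1, h0, h2, h3⟩, p, hp⟩
        have hpQ : p ∉ Q := fun hpQ => ((hS m h1).2 p hpQ).1 hp
        exact ⟨p, hpQ, mem_sq_of_not hp, h2, h3⟩
    have hsub : G \ W ⊆ Fam Φ Ng B E Z := by
      rintro m ⟨⟨h1, h0, h2, h3⟩, hmW⟩
      refine ⟨h0, h2, h3, ⟨(hS m h1).1, ?_⟩, ?_⟩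
      · intro p hcon
        exact hmW ⟨⟨h1, h0, h2, h3⟩, p, hcon⟩
      · intro p hp3
        exact ((hS m h1).2 p (hmem3 p hp3)).2 hp3
    have hcard : (G.ncard : ℝ) ≤ ((Fam Φ Ng B E Z).ncard : ℝ) + (W.ncard : ℝ) := by
      have h1 : G.ncard ≤ (G \ W).ncard + W.ncard := Set.ncard_le_ncard_sdiff_add_ncard G W hWfin
      have h2 : (G \ W).ncard ≤ (Fam Φ Ng B E Z).ncard := Set.ncard_le_ncard hsub (hfin Z)
      have h3 : G.ncard ≤ (Fam Φ Ng B E Z).ncard + W.ncard := by omega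
      exact_mod_cast h3
    have hNpos : (0 : ℝ) < (Ideal.absNorm N : ℝ) := by
      have : Ideal.absNorm N ≠ 0 := fun h => hN (Ideal.absNorm_eq_zero_iff.1 h)
      exact_mod_cast Nat.pos_of_ne_zero this
    have hCpos : (0 : ℝ) < (Ideal.absNorm B.cc : ℝ) := by
      have : Ideal.absNorm B.cc ≠ 0 := fun h => hcc (Ideal.absNorm_eq_zero_iff.1 h)
      exact_mod_cast Nat.pos_of_ne_zero this
    have hprod : DkE E ≤ ∏ p ∈ Q, dE E p := hQle Q
    have hw : 0 ≤ Φ.w := ENNReal.toReal_nonneg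
    have hD : 0 ≤ cov k := ENNReal.toReal_nonneg
    obtain ⟨V, hV⟩ : ∃ V : ℝ, (2 * Real.pi) ^ nrComplexPlaces k * Φ.w = V := ⟨_, rfl⟩
    have hV0 : 0 ≤ V := by
      rw [← hV]
      have := Real.pi_pos
      positivity
    rw [hV] at hlow ⊢
    obtain ⟨C, hC⟩ : ∃ C : ℝ, 2 ^ finrank ℚ k * (Ideal.absNorm B.cc : ℝ) ^ 2 = C := ⟨_, rfl⟩
    have hC0 : 0 < C := by
      rw [← hC]
      positivity
    rw [hC] at hScard
    have h1 : (∏ p ∈ Q, dE E p) / C ≤ (S.ncard : ℝ) / (Ideal.absNorm N : ℝ) := by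
      rw [le_div_iff₀ hNpos]
      exact hScard
    have h2 : DkE E * V / (cov k * 2 ^ finrank ℚ k * (Ideal.absNorm B.cc : ℝ) ^ 2) ≤
        (S.ncard : ℝ) / (Ideal.absNorm N : ℝ) * V / cov k := by
      have h3 : DkE E / C ≤ (S.ncard : ℝ) / (Ideal.absNorm N : ℝ) := by
        refine le_trans ?_ h1
        gcongr
      have h4 : DkE E * V / (cov k * 2 ^ finrank ℚ k * (Ideal.absNorm B.cc : ℝ) ^ 2) =
          DkE E / C * V / cov k := by
        rw [mul_assoc (cov k), hC, div_mul_eq_mul_div, div_div, mul_comm (cov k)]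
      rw [h4]
      gcongr
    have hA1 : A * Z * (ε / 2 / A) = ε / 2 * Z := by
      field_simp
    rw [hA1] at hWc
    have h5 : (DkE E * V / (cov k * 2 ^ finrank ℚ k * (Ideal.absNorm B.cc : ℝ) ^ 2) - ε / 2) * Z ≤
        ((S.ncard : ℝ) / (Ideal.absNorm N : ℝ) * V / cov k - ε / 2) * Z := by
      gcongr
    have h6 : (DkE E * V / (cov k * 2 ^ finrank ℚ k * (Ideal.absNorm B.cc : ℝ) ^ 2) - ε) * Z =
        (DkE E * V / (cov k * 2 ^ finrank ℚ k * (Ideal.absNorm B.cc : ℝ) ^ 2) - ε / 2) * Z -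
          ε / 2 * Z := by ring
    rw [h6]
    linarith

end Pool.Agent.LeoD.H73
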